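import Mathlib

/-!
# Correlations in a Hilbert space: averages and cross terms
-/

set_option autoImplicit false

namespace Pool.Agent.Q306.OR

open Filter Topology Finset
open scoped RealInnerProductSpace

variable {H : Type*} [NormedAddCommGroup H] [InnerProductSpace ℝ H] (U : H →ₗᵢ[ℝ] H)

theorem pow_add_apply (m n : ℕ) (x : H) : (U ^ (m + n)) x = (U ^ m) ((U ^ n) x) := by
  rw [pow_add]; rfl

theorem inner_pow (m : ℕ) (x y : H) : ⟪(U ^ m) x, (U ^ m) y⟫ = ⟪x, y⟫ :=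
  (U ^ m).inner_map_map x y

theorem inner_pow_pow (i j : ℕ) (x : H) :
    |⟪(U ^ i) x, (U ^ j) x⟫| = |⟪x, (U ^ (max i j - min i j)) x⟫| := by
  rcases le_total i j with h | h
  · rw [max_eq_right h, min_eq_left h]
    conv_lhs => rw [show j = i + (j - i) by omega, pow_add_apply, inner_pow]
  · rw [max_eq_left h, min_eq_right h]
    conv_lhs => rw [show i = j + (i - j) by omega, pow_add_apply, inner_pow, real_inner_comm]

theorem sum_dist_le (a : ℕ → ℝ) (ha : ∀ n, 0 ≤ a n) (W i : ℕ) (hi : i < W) :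
    ∑ j ∈ range W, a (max i j - min i j) ≤ 2 * ∑ n ∈ range W, a n := by
  have h1 : ∑ j ∈ range W, a (max i j - min i j) ≤
      ∑ j ∈ range W, ((if j ≤ i then a (i - j) else 0) + (if i ≤ j then a (j - i) else 0)) := by
    refine Finset.sum_le_sum fun j _ => ?_
    rcases le_total i j with h | h
    · rw [max_eq_right h, min_eq_left h, if_pos h]
      split_ifs
      · linarith [ha (i - j)]
      · linarith
    · rw [max_eq_left h, min_eq_right h, if_pos h]
      split_ifs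
      · linarith [ha (j - i)]
      · linarith
  refine h1.trans ?_
  rw [Finset.sum_add_distrib, two_mul]
  refine add_le_add ?_ ?_
  · rw [← Finset.sum_filter]
    refine (Finset.sum_le_sum_of_subset_of_nonneg (s := (range W).filter (fun j => j ≤ i))
      (t := (range W).filter (fun j => j ≤ i)) le_rfl (fun _ _ _ => ha _)).trans ?_
    rw [← Finset.sum_image (f := fun n => a n) (g := fun j => i - j)
      (s := (range W).filter (fun j => j ≤ i))]
    · refine Finset.sum_le_sum_of_subset_of_nonneg ?_ (fun _ _ _ => ha _)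
      intro n hn
      obtain ⟨j, hj, rfl⟩ := Finset.mem_image.1 hn
      rw [Finset.mem_range]; omega
    · intro x hx y hy hxy
      have h2 := (Finset.mem_filter.1 hx).2
      have h3 := (Finset.mem_filter.1 hy).2
      simp only at hxy
      omega
  · rw [← Finset.sum_filter]
    rw [← Finset.sum_image (f := fun n => a n) (g := fun j => j - i)
      (s := (range W).filter (fun j => i ≤ j))]
    · refine Finset.sum_le_sum_of_subset_of_nonneg ?_ (fun _ _ _ => ha _)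
      intro n hn
      obtain ⟨j, hj, rfl⟩ := Finset.mem_image.1 hn
      have := Finset.mem_range.1 (Finset.mem_filter.1 hj).1
      rw [Finset.mem_range]; omega
    · intro x hx y hy hxy
      have h2 := (Finset.mem_filter.1 hx).2
      have h3 := (Finset.mem_filter.1 hy).2
      simp only at hxy
      omega

/-- The averages of a vector with decaying correlations are small. -/
theorem exists_avg {g : H} (hg : Tendsto (fun n : ℕ => ⟪g, (U ^ n) g⟫) atTop (𝓝 0)) {δ : ℝ}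
    (hδ : 0 < δ) : ∃ W : ℕ, 0 < W ∧ ‖∑ j ∈ range W, (U ^ j) g‖ ≤ δ * W := by
  have h1 : Tendsto (fun n : ℕ => |⟪g, (U ^ n) g⟫|) atTop (𝓝 0) := by
    simpa using hg.abs
  have h2 := h1.cesaro
  have h3 : ∀ᶠ W : ℕ in atTop, (W : ℝ)⁻¹ * ∑ n ∈ range W, |⟪g, (U ^ n) g⟫| < δ ^ 2 / 2 :=
    h2.eventually (gt_mem_nhds (by positivity))
  obtain ⟨W, hW, hW0⟩ := (h3.and (eventually_gt_atTop 0)).exists
  refine ⟨W, hW0, ?_⟩
  have hWr : (0 : ℝ) < W := by exact_mod_cast hW0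
  have h4 : ‖∑ j ∈ range W, (U ^ j) g‖ ^ 2 ≤ W * (2 * ∑ n ∈ range W, |⟪g, (U ^ n) g⟫|) := by
    rw [← real_inner_self_eq_norm_sq, sum_inner]
    calc ∑ i ∈ range W, ⟪(U ^ i) g, ∑ j ∈ range W, (U ^ j) g⟫
        ≤ ∑ i ∈ range W, (2 * ∑ n ∈ range W, |⟪g, (U ^ n) g⟫|) := by
          refine Finset.sum_le_sum fun i hi => ?_
          rw [inner_sum]
          refine (Finset.sum_le_sum fun j _ => le_abs_self _).trans ?_
          rw [Finset.sum_congr rfl fun j _ => inner_pow_pow U i j g]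
          exact sum_dist_le (fun n => |⟪g, (U ^ n) g⟫|) (fun n => abs_nonneg _) W i
            (Finset.mem_range.1 hi)
      _ = _ := by rw [Finset.sum_const, card_range, nsmul_eq_mul]
  have h5 : ∑ n ∈ range W, |⟪g, (U ^ n) g⟫| ≤ δ ^ 2 / 2 * W := by
    have := hW.le
    rw [inv_mul_le_iff₀ hWr] at this
    linarith
  have h6 : ‖∑ j ∈ range W, (U ^ j) g‖ ^ 2 ≤ (δ * W) ^ 2 := by
    refine h4.trans ?_
    have : (W : ℝ) * (2 * ∑ n ∈ range W, |⟪g, (U ^ n) g⟫|) ≤ W * (2 * (δ ^ 2 / 2 * W)) :=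
      mul_le_mul_of_nonneg_left (by linarith) hWr.le
    refine this.trans (le_of_eq ?_)
    ring
  exact (sq_le_sq₀ (norm_nonneg _) (by positivity)).1 h6

theorem pow_sub_le {h : H} {ε : ℝ} (hε : ‖U h - h‖ ≤ ε) (j : ℕ) : ‖(U ^ j) h - h‖ ≤ j * ε := by
  induction j with
  | zero => simp
  | succ j ih =>
    have h1 : (U ^ (j + 1)) h - h = ((U ^ j) (U h) - (U ^ j) h) + ((U ^ j) h - h) := by
      rw [pow_add_apply, pow_one]; abel
    rw [h1]
    refine (norm_add_le _ _).trans ?_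
    rw [← map_sub, (U ^ j).norm_map]
    push_cast
    linarith

/-- The cross terms of a vector with small averages and an almost invariant vector. -/
theorem cross_le {g h : H} {W : ℕ} (hW : 0 < W) {δ ε : ℝ}
    (hg : ‖∑ j ∈ range W, (U ^ j) g‖ ≤ δ * W) (hh : ‖U h - h‖ ≤ ε) (n : ℕ) :
    |⟪g, (U ^ n) h⟫| ≤ δ * ‖h‖ + W * ε * ‖g‖ := by
  have hWr : (0 : ℝ) < W := by exact_mod_cast hW
  have hε : 0 ≤ ε := (norm_nonneg _).trans hh
  have h1 : ∀ j ∈ range W, |⟪g, (U ^ n) h⟫ - ⟪(U ^ j) g, (U ^ n) h⟫| ≤ W * ε * ‖g‖ := by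
    intro j hj
    have h2 : ⟪g, (U ^ n) h⟫ = ⟪(U ^ j) g, (U ^ n) ((U ^ j) h)⟫ := by
      rw [← pow_add_apply, add_comm n j, pow_add_apply, inner_pow]
    rw [h2, ← inner_sub_right, ← map_sub]
    refine (abs_real_inner_le_norm _ _).trans ?_
    rw [(U ^ j).norm_map, (U ^ n).norm_map, mul_comm]
    refine mul_le_mul_of_nonneg_right ((pow_sub_le U hh j).trans ?_) (norm_nonneg _)
    refine mul_le_mul_of_nonneg_right ?_ hε
    exact_mod_cast (Finset.mem_range.1 hj).le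
  have h3 : |(W : ℝ) * ⟪g, (U ^ n) h⟫| ≤ W * (δ * ‖h‖ + W * ε * ‖g‖) := by
    have h4 : (W : ℝ) * ⟪g, (U ^ n) h⟫ =
        ∑ j ∈ range W, (⟪g, (U ^ n) h⟫ - ⟪(U ^ j) g, (U ^ n) h⟫) +
          ⟪∑ j ∈ range W, (U ^ j) g, (U ^ n) h⟫ := by
      rw [sum_inner, Finset.sum_sub_distrib, Finset.sum_const, card_range, nsmul_eq_mul]
      ring
    rw [h4]
    refine (abs_add_le _ _).trans ?_
    have h5 : |∑ j ∈ range W, (⟪g, (U ^ n) h⟫ - ⟪(U ^ j) g, (U ^ n) h⟫)| ≤ W * (W * ε * ‖g‖) := by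
      refine (Finset.abs_sum_le_sum_abs _ _).trans ?_
      refine (Finset.sum_le_sum h1).trans (le_of_eq ?_)
      rw [Finset.sum_const, card_range, nsmul_eq_mul]
    have h6 : |⟪∑ j ∈ range W, (U ^ j) g, (U ^ n) h⟫| ≤ δ * W * ‖h‖ := by
      refine (abs_real_inner_le_norm _ _).trans ?_
      rw [(U ^ n).norm_map]
      exact mul_le_mul_of_nonneg_right hg (norm_nonneg _)
    nlinarith [h5, h6]
  rw [abs_mul, abs_of_pos hWr] at h3
  exact le_of_mul_le_mul_left h3 hWr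

/-- The other cross terms. -/
theorem cross_le' {g h : H} {W : ℕ} (hW : 0 < W) {δ ε : ℝ}
    (hg : ‖∑ j ∈ range W, (U ^ j) g‖ ≤ δ * W) (hh : ‖U h - h‖ ≤ ε) (n : ℕ) :
    |⟪h, (U ^ n) g⟫| ≤ δ * ‖h‖ + 2 * (W * ε * ‖g‖) := by
  have hWr : (0 : ℝ) < W := by exact_mod_cast hW
  have hε : 0 ≤ ε := (norm_nonneg _).trans hh
  have hshift : ∀ j, j ≤ W → j ≤ n → |⟪h, (U ^ n) g⟫ - ⟪h, (U ^ (n - j)) g⟫| ≤ W * ε * ‖g‖ := by
    intro j hj hjn
    have h2 : ⟪h, (U ^ (n - j)) g⟫ = ⟪(U ^ j) h, (U ^ n) g⟫ := by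
      conv_rhs => rw [show n = j + (n - j) by omega, pow_add_apply, inner_pow]
    rw [h2, ← inner_sub_left]
    refine (abs_real_inner_le_norm _ _).trans ?_
    rw [(U ^ n).norm_map, norm_sub_rev]
    refine mul_le_mul_of_nonneg_right ((pow_sub_le U hh j).trans ?_) (norm_nonneg _)
    refine mul_le_mul_of_nonneg_right ?_ hε
    exact_mod_cast hj
  rcases le_total n W with hn | hn
  · have h1 := hshift n hn le_rfl
    rw [Nat.sub_self, pow_zero] at h1
    have h2 := cross_le U hW hg hh 0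
    rw [pow_zero] at h2
    have h3 : |⟪h, (1 : H →ₗᵢ[ℝ] H) g⟫| ≤ δ * ‖h‖ + W * ε * ‖g‖ := by
      rw [real_inner_comm]
      exact h2
    have h4 : |⟪h, (U ^ n) g⟫| ≤ |⟪h, (U ^ n) g⟫ - ⟪h, (1 : H →ₗᵢ[ℝ] H) g⟫| +
        |⟪h, (1 : H →ₗᵢ[ℝ] H) g⟫| := by
      have := abs_add_le (⟪h, (U ^ n) g⟫ - ⟪h, (1 : H →ₗᵢ[ℝ] H) g⟫) ⟪h, (1 : H →ₗᵢ[ℝ] H) g⟫
      rwa [sub_add_cancel] at this
    linarith
  · have h4 : (W : ℝ) * ⟪h, (U ^ n) g⟫ =
        ∑ j ∈ range W, (⟪h, (U ^ n) g⟫ - ⟪h, (U ^ (n - j)) g⟫) +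
          ⟪h, ∑ j ∈ range W, (U ^ (n - j)) g⟫ := by
      rw [inner_sum, Finset.sum_sub_distrib, Finset.sum_const, card_range, nsmul_eq_mul]
      ring
    have h7 : ∑ j ∈ range W, (U ^ (n - j)) g = (U ^ (n - W + 1)) (∑ j ∈ range W, (U ^ j) g) := by
      rw [map_sum, ← Finset.sum_range_reflect]
      refine Finset.sum_congr rfl fun j hj => ?_
      have := Finset.mem_range.1 hj
      rw [← pow_add_apply]
      congr 2
      omega
    have h3 : |(W : ℝ) * ⟪h, (U ^ n) g⟫| ≤ W * (δ * ‖h‖ + W * ε * ‖g‖) := by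
      rw [h4]
      refine (abs_add_le _ _).trans ?_
      have h5 : |∑ j ∈ range W, (⟪h, (U ^ n) g⟫ - ⟪h, (U ^ (n - j)) g⟫)| ≤
          W * (W * ε * ‖g‖) := by
        refine (Finset.abs_sum_le_sum_abs _ _).trans ?_
        refine (Finset.sum_le_sum fun j hj => hshift j (Finset.mem_range.1 hj).le
          ((Finset.mem_range.1 hj).le.trans hn)).trans (le_of_eq ?_)
        rw [Finset.sum_const, card_range, nsmul_eq_mul]
      have h6 : |⟪h, ∑ j ∈ range W, (U ^ (n - j)) g⟫| ≤ δ * W * ‖h‖ := by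
        refine (abs_real_inner_le_norm _ _).trans ?_
        rw [h7, (U ^ _).norm_map, mul_comm]
        exact mul_le_mul_of_nonneg_right hg (norm_nonneg _)
      nlinarith [h5, h6]
    rw [abs_mul, abs_of_pos hWr] at h3
    have h8 := le_of_mul_le_mul_left h3 hWr
    have h9 : 0 ≤ (W : ℝ) * ε * ‖g‖ := by positivity
    linarith

end Pool.Agent.Q306.OR
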