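import Mathlib

/-!
# Almost invariant sets in mixing systems
-/

set_option autoImplicit false
set_option linter.unusedSectionVars false

namespace Pool.Agent.Q306.OR

open MeasureTheory Filter Topology Set

variable {X : Type*} [MeasurableSpace X] {μ : Measure X} [IsProbabilityMeasure μ] {T : X → X}

/-- The mixing property. -/
def Mixing (μ : Measure X) (T : X → X) : Prop :=
  ∀ A B : Set X, MeasurableSet A → MeasurableSet B →
    Tendsto (fun n : ℕ => μ.real (A ∩ T^[n] ⁻¹' B)) atTop (𝓝 (μ.real A * μ.real B))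

theorem real_preimage (hT : MeasurePreserving T μ μ) (n : ℕ) {B : Set X} (hB : MeasurableSet B) :
    μ.real (T^[n] ⁻¹' B) = μ.real B :=
  congrArg ENNReal.toReal ((hT.iterate n).measure_preimage hB.nullMeasurableSet)

theorem exists_small (hmix : Mixing μ T) {A : Set X} (hA : MeasurableSet A) (h0 : 0 < μ.real A)
    (h1 : μ.real A < 1) {ε : ℝ} (hε : 0 < ε) (hT : MeasurePreserving T μ μ) :
    ∃ B : Set X, MeasurableSet B ∧ 0 < μ.real B ∧ μ.real B < ε := by
  set a := μ.real A with ha
  set c := (1 + a) / 2 with hc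
  have hc1 : c < 1 := by rw [hc]; linarith
  have hc0 : 0 < c := by rw [hc]; linarith
  have hac : a < c := by rw [hc]; linarith
  have key : ∀ k : ℕ, ∃ B : Set X, MeasurableSet B ∧ 0 < μ.real B ∧ μ.real B ≤ a ∧
      μ.real B ≤ c ^ k := by
    intro k
    induction k with
    | zero => exact ⟨A, hA, h0, le_rfl, by rw [pow_zero]; exact h1.le⟩
    | succ k ih =>
      obtain ⟨B, hB, hB0, hBa, hBk⟩ := ih
      have h2 := hmix B B hB hB
      have h3 : μ.real B * μ.real B < μ.real B * c :=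
        mul_lt_mul_of_pos_left (hBa.trans_lt hac) hB0
      have h4 : 0 < μ.real B * μ.real B := mul_pos hB0 hB0
      obtain ⟨n, hn1, hn2⟩ := ((h2.eventually (gt_mem_nhds h3)).and
        (h2.eventually (lt_mem_nhds h4))).exists
      refine ⟨B ∩ T^[n] ⁻¹' B, hB.inter ((hT.iterate n).measurable hB), hn2, ?_, ?_⟩
      · exact (measureReal_mono inter_subset_left).trans hBa
      · refine hn1.le.trans ?_
        rw [pow_succ]
        exact mul_le_mul_of_nonneg_right hBk hc0.le
  obtain ⟨k, hk⟩ := exists_pow_lt_of_lt_one hε hc1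
  obtain ⟨B, hB, hB0, -, hBk⟩ := key k
  exact ⟨B, hB, hB0, hBk.trans_lt hk⟩

/-- The points which visit `B` before the time `m`. -/
def visits (T : X → X) (B : Set X) (m : ℕ) : Set X := ⋃ n ∈ Finset.range m, T^[n] ⁻¹' B

theorem measurable_visits (hT : MeasurePreserving T μ μ) {B : Set X} (hB : MeasurableSet B)
    (m : ℕ) : MeasurableSet (visits T B m) :=
  Finset.measurableSet_biUnion _ fun n _ => (hT.iterate n).measurable hB

omit [MeasurableSpace X] in
theorem mem_visits {B : Set X} {m : ℕ} {x : X} : x ∈ visits T B m ↔ ∃ n < m, T^[n] x ∈ B := by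
  simp [visits]

theorem tendsto_visits (hT : MeasurePreserving T μ μ) (hmix : Mixing μ T) {B : Set X}
    (hB : MeasurableSet B) (hB0 : 0 < μ.real B) :
    Tendsto (fun m : ℕ => μ.real (visits T B m)) atTop (𝓝 1) := by
  set V : Set X := ⋃ m, visits T B m with hV
  have hmono : Monotone (visits T B) := by
    intro m m' h x hx
    obtain ⟨n, hn, hx⟩ := mem_visits.1 hx
    exact mem_visits.2 ⟨n, hn.trans_le h, hx⟩
  have h1 : Tendsto (fun m : ℕ => μ.real (visits T B m)) atTop (𝓝 (μ.real V)) := by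
    have := tendsto_measure_iUnion_atTop (μ := μ) hmono
    exact (ENNReal.tendsto_toReal (measure_ne_top μ V)).comp this
  have hVm : MeasurableSet V := MeasurableSet.iUnion fun m => measurable_visits hT hB m
  have hsub : ∀ n : ℕ, T^[n] ⁻¹' V ⊆ V := by
    intro n x hx
    obtain ⟨m, hm⟩ := mem_iUnion.1 hx
    obtain ⟨k, hk, hx⟩ := mem_visits.1 hm
    rw [← Function.iterate_add_apply] at hx
    exact mem_iUnion.2 ⟨k + n + 1, mem_visits.2 ⟨k + n, Nat.lt_succ_self _, hx⟩⟩
  have h2 : ∀ n : ℕ, μ.real (V ∩ T^[n] ⁻¹' V) = μ.real V := by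
    intro n
    rw [inter_eq_self_of_subset_right (hsub n), real_preimage hT n hVm]
  have h3 := hmix V V hVm hVm
  simp only [h2] at h3
  have h4 : μ.real V = μ.real V * μ.real V := tendsto_nhds_unique tendsto_const_nhds h3
  have h5 : 0 < μ.real V := by
    refine hB0.trans_le (measureReal_mono ?_)
    intro x hx
    exact mem_iUnion.2 ⟨1, mem_visits.2 ⟨0, Nat.one_pos, hx⟩⟩
  have h6 : μ.real V = 1 := by
    have : μ.real V * (μ.real V - 1) = 0 := by linarith
    rcases mul_eq_zero.1 this with h | h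
    · exact absurd h h5.ne'
    · linarith
  rwa [h6] at h1

theorem visits_succ_le (hT : MeasurePreserving T μ μ) {B : Set X} (hB : MeasurableSet B) (m : ℕ) :
    μ.real (visits T B (m + 1)) ≤ μ.real (visits T B m) + μ.real B := by
  have h1 : visits T B (m + 1) ⊆ visits T B m ∪ T^[m] ⁻¹' B := by
    intro x hx
    obtain ⟨n, hn, hx'⟩ := mem_visits.1 hx
    rcases Nat.lt_succ_iff_lt_or_eq.1 hn with h | rfl
    · exact Or.inl (mem_visits.2 ⟨n, h, hx'⟩)
    · exact Or.inr hx'
  refine (measureReal_mono h1).trans ?_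
  refine (measureReal_union_le _ _).trans ?_
  rw [real_preimage hT m hB]

/-- **Almost invariant sets.** -/
theorem exists_almost_invariant (hT : MeasurePreserving T μ μ) (hmix : Mixing μ T)
    (hne : ∃ A : Set X, MeasurableSet A ∧ 0 < μ.real A ∧ μ.real A < 1) {ε : ℝ} (hε : 0 < ε) :
    ∃ A : Set X, MeasurableSet A ∧ 2 / 5 ≤ μ.real A ∧ μ.real A ≤ 3 / 5 ∧
      ∃ C D : Set X, MeasurableSet C ∧ MeasurableSet D ∧ μ.real C ≤ ε ∧ μ.real D ≤ ε ∧
        (∀ x, x ∈ A → T x ∉ A → x ∈ C) ∧ (∀ x, x ∉ A → T x ∈ A → x ∈ D) := by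
  obtain ⟨A, hA, h0, h1⟩ := hne
  obtain ⟨B, hB, hB0, hBε⟩ := exists_small hmix hA h0 h1 (ε := min ε (1 / 5))
    (lt_min hε (by norm_num)) hT
  have hB1 : μ.real B < 1 / 5 := hBε.trans_le (min_le_right _ _)
  have hB2 : μ.real B < ε := hBε.trans_le (min_le_left _ _)
  have h2 := tendsto_visits hT hmix hB hB0
  classical
  have hex : ∃ m : ℕ, 2 / 5 ≤ μ.real (visits T B m) := by
    have h3 : (2 / 5 : ℝ) < 1 := by norm_num
    exact ((h2.eventually (lt_mem_nhds h3)).exists).imp fun m hm => hm.le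
  obtain ⟨m, hm, hmin⟩ : ∃ m, 2 / 5 ≤ μ.real (visits T B m) ∧
      ∀ k < m, μ.real (visits T B k) < 2 / 5 :=
    ⟨Nat.find hex, Nat.find_spec hex, fun k hk => not_le.1 (Nat.find_min hex hk)⟩
  have hm0 : m ≠ 0 := by
    rintro rfl
    have : visits T B 0 = ∅ := by
      ext x
      simp [mem_visits]
    rw [this, measureReal_empty] at hm
    norm_num at hm
  obtain ⟨k, rfl⟩ := Nat.exists_eq_succ_of_ne_zero hm0
  refine ⟨visits T B (k + 1), measurable_visits hT hB _, hm, ?_, B, T^[k + 1] ⁻¹' B, hB,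
    (hT.iterate _).measurable hB, hB2.le, ?_, ?_, ?_⟩
  · have h3 := visits_succ_le hT hB k
    have h4 := hmin k (Nat.lt_succ_self k)
    linarith
  · rw [real_preimage hT _ hB]
    exact hB2.le
  · intro x hx hTx
    obtain ⟨n, hn, hx⟩ := mem_visits.1 hx
    rcases n with _ | n
    · exact hx
    · refine absurd (mem_visits.2 ⟨n, by omega, ?_⟩) hTx
      rwa [← Function.iterate_succ_apply]
  · intro x hx hTx
    obtain ⟨n, hn, hTx⟩ := mem_visits.1 hTx
    rw [← Function.iterate_succ_apply] at hTx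
    rcases Nat.lt_or_ge (n + 1) (k + 1) with h | h
    · exact absurd (mem_visits.2 ⟨n + 1, h, hTx⟩) hx
    · have hnk : n = k := by omega
      rw [hnk] at hTx
      exact hTx

end Pool.Agent.Q306.OR
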