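import Mathlib
import Pool.Agent.Q306.OR.Erg

/-!
# The inductive construction
-/

set_option autoImplicit false
set_option linter.unusedSectionVars false

namespace Pool.Agent.Q306.OR

open Filter Topology Finset
open scoped RealInnerProductSpace

variable {H : Type*} [NormedAddCommGroup H] [InnerProductSpace ℝ H] (U : H →ₗᵢ[ℝ] H)

/-- The coefficients. -/
noncomputable def r : ℝ := 7 / 8

/-- One step of the construction. -/
structure Step (g : H) (N L : ℕ) (h : H) (N' : ℕ) : Prop where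
  lt : N < N'
  old : ∀ n, N' ≤ n → |⟪g, (U ^ n) g⟫| ≤ (1 / 2) ^ L / 16
  pos : ∀ n, n ≤ N' → 1 / 6 ≤ ⟪h, (U ^ n) h⟫
  low : ∀ n, -(1 / 4) ≤ ⟪h, (U ^ n) h⟫
  cross : ∀ n, |⟪g, (U ^ n) h⟫| ≤ (1 / 2) ^ L / 64
  cross' : ∀ n, |⟪h, (U ^ n) g⟫| ≤ (1 / 2) ^ L / 64

theorem exists_step {D : Submodule ℝ H} (hD : ∀ x ∈ D, Tendsto (fun n : ℕ => ⟪x, (U ^ n) x⟫) atTop (𝓝 0))
    {𝒦 : Set H} (hK : ∀ ε : ℝ, 0 < ε → ∃ h ∈ 𝒦, ‖U h - h‖ ≤ ε)
    (hlow : ∀ h ∈ 𝒦, 1 / 5 ≤ ‖h‖ ^ 2) (hup : ∀ h ∈ 𝒦, ‖h‖ ^ 2 ≤ 1 / 4)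
    {g : H} (hg : g ∈ D) (N L : ℕ) : ∃ h ∈ 𝒦, ∃ N', Step U g N L h N' := by
  have hη : (0 : ℝ) < (1 / 2) ^ L / 256 := by positivity
  have h1 : Tendsto (fun n : ℕ => |⟪g, (U ^ n) g⟫|) atTop (𝓝 0) := by simpa using (hD g hg).abs
  have h2 : ∀ᶠ n : ℕ in atTop, |⟪g, (U ^ n) g⟫| < (1 / 2) ^ L / 16 :=
    h1.eventually (gt_mem_nhds (by positivity))
  obtain ⟨N₁, hN₁⟩ := eventually_atTop.1 h2
  obtain ⟨W, hW, hWg⟩ := exists_avg U (hD g hg) hη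
  set N' := max (N + 1) N₁ with hN'
  have hWr : (0 : ℝ) < W := by exact_mod_cast hW
  have hN'r : (0 : ℝ) < N' + 1 := by positivity
  set ε : ℝ := min ((1 / 15) / (N' + 1)) ((1 / 2) ^ L / 256 / (W * (‖g‖ + 1))) with hε
  have hg1 : (0 : ℝ) < ‖g‖ + 1 := by positivity
  have hε0 : 0 < ε := lt_min (by positivity) (by positivity)
  obtain ⟨h, hh, hUh⟩ := hK ε hε0
  have hnorm : ‖h‖ ≤ 1 / 2 := by
    have := hup h hh
    nlinarith [norm_nonneg h]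
  have hεN : (N' : ℝ) * ε ≤ 1 / 15 := by
    have : ε ≤ (1 / 15) / (N' + 1) := min_le_left _ _
    calc (N' : ℝ) * ε ≤ (N' + 1) * ((1 / 15) / (N' + 1)) := by
          refine mul_le_mul (by linarith) this hε0.le hN'r.le
      _ = 1 / 15 := by field_simp
  have hεW : (W : ℝ) * ε * ‖g‖ ≤ (1 / 2) ^ L / 256 := by
    have h3 : ε ≤ (1 / 2) ^ L / 256 / (W * (‖g‖ + 1)) := min_le_right _ _
    calc (W : ℝ) * ε * ‖g‖ ≤ W * ((1 / 2) ^ L / 256 / (W * (‖g‖ + 1))) * (‖g‖ + 1) := by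
          refine mul_le_mul (mul_le_mul_of_nonneg_left h3 hWr.le) (by linarith) (norm_nonneg _)
            (by positivity)
      _ = (1 / 2) ^ L / 256 := by field_simp
  have hinner : ∀ n : ℕ, ⟪h, (U ^ n) h⟫ = ‖h‖ ^ 2 + ⟪h, (U ^ n) h - h⟫ := by
    intro n
    rw [inner_sub_right, real_inner_self_eq_norm_sq]; ring
  refine ⟨h, hh, N', ?_, ?_, ?_, ?_, ?_, ?_⟩
  · omega
  · intro n hn
    exact (hN₁ n (le_trans (le_max_right _ _) hn)).le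
  · intro n hn
    rw [hinner]
    have h3 : |⟪h, (U ^ n) h - h⟫| ≤ 1 / 2 * (1 / 15) := by
      refine (abs_real_inner_le_norm _ _).trans ?_
      refine mul_le_mul hnorm ?_ (norm_nonneg _) (by norm_num)
      refine (pow_sub_le U hUh n).trans (le_trans ?_ hεN)
      exact mul_le_mul_of_nonneg_right (by exact_mod_cast hn) hε0.le
    have h4 := hlow h hh
    have h5 := (abs_le.1 h3).1
    linarith
  · intro n
    have h3 := (abs_le.1 (abs_real_inner_le_norm h ((U ^ n) h))).1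
    rw [(U ^ n).norm_map] at h3
    nlinarith [hup h hh]
  · intro n
    refine (cross_le U hW hWg hUh n).trans ?_
    have h3 : (1 / 2) ^ L / 256 * ‖h‖ ≤ (1 / 2) ^ L / 256 * (1 / 2) :=
      mul_le_mul_of_nonneg_left hnorm hη.le
    linarith
  · intro n
    refine (cross_le' U hW hWg hUh n).trans ?_
    have h3 : (1 / 2) ^ L / 256 * ‖h‖ ≤ (1 / 2) ^ L / 256 * (1 / 2) :=
      mul_le_mul_of_nonneg_left hnorm hη.le
    linarith

/-- **The construction.** -/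
theorem exists_sequence {D : Submodule ℝ H}
    (hD : ∀ x ∈ D, Tendsto (fun n : ℕ => ⟪x, (U ^ n) x⟫) atTop (𝓝 0))
    {𝒦 : Set H} (hKD : 𝒦 ⊆ D) (hK : ∀ ε : ℝ, 0 < ε → ∃ h ∈ 𝒦, ‖U h - h‖ ≤ ε)
    (hlow : ∀ h ∈ 𝒦, 1 / 5 ≤ ‖h‖ ^ 2) (hup : ∀ h ∈ 𝒦, ‖h‖ ^ 2 ≤ 1 / 4) :
    ∃ (h : ℕ → H) (N : ℕ → ℕ), (∀ k, h k ∈ 𝒦) ∧ N 0 = 0 ∧
      ∀ k, Step U (∑ i ∈ range k, r ^ i • h i) (N k) k (h k) (N (k + 1)) := by
  classical
  choose! nh hnh1 nN hnN using fun (p : D × ℕ) (L : ℕ) =>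
    exists_step U hD hK hlow hup p.1.2 p.2 L
  -- the states
  let st : ℕ → D × ℕ := fun k => Nat.rec (0, 0)
    (fun L p => (⟨p.1 + r ^ L • nh p L, D.add_mem p.1.2 (D.smul_mem _ (hKD (hnh1 p L)))⟩, nN p L)) k
  have hst : ∀ L, st (L + 1) = (⟨(st L).1 + r ^ L • nh (st L) L,
      D.add_mem (st L).1.2 (D.smul_mem _ (hKD (hnh1 (st L) L)))⟩, nN (st L) L) := fun L => rfl
  refine ⟨fun k => nh (st k) k, fun k => (st k).2, fun k => hnh1 _ _, rfl, ?_⟩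
  have hsum : ∀ k, ∑ i ∈ range k, r ^ i • nh (st i) i = ((st k).1 : H) := by
    intro k
    induction k with
    | zero => rfl
    | succ k ih => rw [Finset.sum_range_succ, ih, hst]
  intro k
  rw [hsum k]
  exact hnN (st k) k

section

variable {U} {h : ℕ → H} {N : ℕ → ℕ}
  (hstep : ∀ k, Step U (∑ i ∈ range k, r ^ i • h i) (N k) k (h k) (N (k + 1)))

include hstep

theorem step_ge (n m : ℕ) :
    ⟪∑ i ∈ range m, r ^ i • h i, (U ^ n) (∑ i ∈ range m, r ^ i • h i)⟫ - (1 / 2) ^ m / 32 +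
      (r ^ 2) ^ m * ⟪h m, (U ^ n) (h m)⟫ ≤
    ⟪∑ i ∈ range (m + 1), r ^ i • h i, (U ^ n) (∑ i ∈ range (m + 1), r ^ i • h i)⟫ := by
  rw [Finset.sum_range_succ]
  set G := ∑ i ∈ range m, r ^ i • h i
  rw [map_add, inner_add_left, inner_add_right, inner_add_right, map_smul, inner_smul_left,
    inner_smul_left, inner_smul_right, inner_smul_right]
  have h1 := (abs_le.1 ((hstep m).cross n)).1
  have h2 := (abs_le.1 ((hstep m).cross' n)).1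
  have h3 : (0 : ℝ) ≤ r ^ m := by unfold r; positivity
  have h4 : r ^ m ≤ 1 := pow_le_one₀ (by unfold r; norm_num) (by unfold r; norm_num)
  have h5 : (0 : ℝ) ≤ (1 / 2) ^ m / 64 := by positivity
  have h6 : r ^ m * (r ^ m * ⟪h m, (U ^ n) (h m)⟫) = (r ^ 2) ^ m * ⟪h m, (U ^ n) (h m)⟫ := by ring
  simp only [RCLike.conj_to_real]
  rw [h6]
  nlinarith [mul_le_mul_of_nonneg_left h1 h3, mul_le_mul_of_nonneg_left h2 h3,
    mul_nonneg h5 (sub_nonneg.2 h4)]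

theorem half_le (m : ℕ) : ((1 : ℝ) / 2) ^ m ≤ (r ^ 2) ^ m :=
  pow_le_pow_left₀ (by norm_num) (by unfold r; norm_num) m

theorem step_pos {n m : ℕ} (hn : n ≤ N (m + 1)) :
    ⟪∑ i ∈ range m, r ^ i • h i, (U ^ n) (∑ i ∈ range m, r ^ i • h i)⟫ + (r ^ 2) ^ m / 8 ≤
    ⟪∑ i ∈ range (m + 1), r ^ i • h i, (U ^ n) (∑ i ∈ range (m + 1), r ^ i • h i)⟫ := by
  refine le_trans ?_ (step_ge hstep n m)
  have h1 := (hstep m).pos n hn
  have h2 := half_le hstep m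
  have h3 : (0 : ℝ) ≤ (r ^ 2) ^ m := by unfold r; positivity
  nlinarith

theorem mono : StrictMono N := strictMono_nat_of_lt_succ fun k => (hstep k).lt

theorem partial_add {n m : ℕ} (hn : n ≤ N (m + 1)) (K : ℕ) :
    ⟪∑ i ∈ range m, r ^ i • h i, (U ^ n) (∑ i ∈ range m, r ^ i • h i)⟫ +
      (r ^ 2) ^ m * (∑ i ∈ range K, (r ^ 2) ^ i) / 8 ≤
    ⟪∑ i ∈ range (m + K), r ^ i • h i, (U ^ n) (∑ i ∈ range (m + K), r ^ i • h i)⟫ := by
  induction K with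
  | zero => simp
  | succ K ih =>
    have h1 : n ≤ N (m + K + 1) :=
      hn.trans ((mono hstep).monotone (by omega))
    have h2 := step_pos hstep h1
    rw [Finset.sum_range_succ (fun i => (r ^ 2) ^ i), ← add_assoc m K 1]
    refine le_trans ?_ h2
    rw [pow_add]
    linarith

/-- The correlations of the partial sums are bounded below by a positive number. -/
theorem partial_pos (hN : N 0 = 0) {n : ℕ} (hn : 1 ≤ n) : ∃ c : ℝ, 0 < c ∧ ∃ M₀ : ℕ, ∀ M, M₀ ≤ M →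
    c ≤ ⟪∑ i ∈ range M, r ^ i • h i, (U ^ n) (∑ i ∈ range M, r ^ i • h i)⟫ := by
  classical
  have hr0 : (0 : ℝ) ≤ r ^ 2 := by unfold r; positivity
  have hex : ∃ k, n ≤ N k := ⟨n, (mono hstep).le_apply⟩
  obtain ⟨k, hk, hmin⟩ : ∃ k, n ≤ N k ∧ ∀ j < k, N j < n :=
    ⟨Nat.find hex, Nat.find_spec hex, fun j hj => not_le.1 (Nat.find_min hex hj)⟩
  rcases k with _ | _ | j
  · omega
  · refine ⟨1 / 8, by norm_num, 1, fun M hM => ?_⟩
    obtain ⟨K, rfl⟩ := Nat.exists_eq_add_of_le hM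
    have h1 := partial_add hstep (n := n) (m := 0) hk (1 + K)
    rw [Finset.sum_range_add, Finset.sum_range_one] at h1
    have h2 : (0 : ℝ) ≤ ∑ x ∈ range K, (r ^ 2) ^ (1 + x) :=
      Finset.sum_nonneg fun _ _ => by positivity
    simp only [range_zero, Finset.sum_empty, map_zero, inner_zero_left, pow_zero, one_mul,
      zero_add] at h1
    linarith
  · -- `N (j + 1) < n ≤ N (j + 2)`
    have hlt : N (j + 1) < n := hmin (j + 1) (by omega)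
    have h1 := (hstep j).old n hlt.le
    have h2 := step_ge hstep n j
    have h3 := (hstep j).low n
    have h4 := half_le hstep j
    have hs : (0 : ℝ) < (r ^ 2) ^ j := by unfold r; positivity
    have h5 : -(11 / 32) * (r ^ 2) ^ j ≤ ⟪∑ i ∈ range (j + 1), r ^ i • h i,
        (U ^ n) (∑ i ∈ range (j + 1), r ^ i • h i)⟫ := by
      refine le_trans ?_ h2
      have h6 := (abs_le.1 h1).1
      nlinarith
    refine ⟨(r ^ 2) ^ j * (1 / 50), by positivity, j + 1 + 9, fun M hM => ?_⟩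
    obtain ⟨K, rfl⟩ := Nat.exists_eq_add_of_le hM
    have h6 := partial_add hstep (n := n) (m := j + 1) hk (9 + K)
    rw [Finset.sum_range_add (fun i => (r ^ 2) ^ i) 9 K] at h6
    have h7 : (0 : ℝ) ≤ ∑ x ∈ range K, (r ^ 2) ^ (9 + x) :=
      Finset.sum_nonneg fun _ _ => by positivity
    have h8 : (11 / 32 + 1 / 50) * 8 ≤ r ^ 2 * ∑ x ∈ range 9, (r ^ 2) ^ x := by
      unfold r
      norm_num [Finset.sum_range_succ]
    have h9 : (11 / 32 + 1 / 50) * 8 ≤ r ^ 2 * (∑ x ∈ range 9, (r ^ 2) ^ x +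
        ∑ x ∈ range K, (r ^ 2) ^ (9 + x)) := by
      have : (0 : ℝ) ≤ r ^ 2 * ∑ x ∈ range K, (r ^ 2) ^ (9 + x) := by positivity
      rw [mul_add]; linarith
    rw [← add_assoc] at h6
    refine le_trans ?_ h6
    rw [pow_succ ((r : ℝ) ^ 2) j]
    nlinarith [mul_le_mul_of_nonneg_left h9 hs.le]

end

/-- **The abstract theorem.** -/
theorem exists_overrecurrent {D : Submodule ℝ H}
    (hD : ∀ x ∈ D, Tendsto (fun n : ℕ => ⟪x, (U ^ n) x⟫) atTop (𝓝 0))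
    {𝒦 : Set H} (hKD : 𝒦 ⊆ D) (hK : ∀ ε : ℝ, 0 < ε → ∃ h ∈ 𝒦, ‖U h - h‖ ≤ ε)
    (hlow : ∀ h ∈ 𝒦, 1 / 5 ≤ ‖h‖ ^ 2) (hup : ∀ h ∈ 𝒦, ‖h‖ ^ 2 ≤ 1 / 4) :
    ∃ h : ℕ → H, (∀ k, h k ∈ 𝒦) ∧ ∀ g : H,
      Tendsto (fun M : ℕ => ∑ i ∈ range M, r ^ i • h i) atTop (𝓝 g) →
        ∀ n : ℕ, 1 ≤ n → 0 < ⟪g, (U ^ n) g⟫ := by
  obtain ⟨h, N, h1, hN, hstep⟩ := exists_sequence U hD hKD hK hlow hup
  refine ⟨h, h1, fun g hg n hn => ?_⟩
  obtain ⟨c, hc, M₀, hM⟩ := partial_pos hstep hN hn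
  refine hc.trans_le ?_
  have h2 : Tendsto (fun M : ℕ => ⟪∑ i ∈ range M, r ^ i • h i,
      (U ^ n) (∑ i ∈ range M, r ^ i • h i)⟫) atTop (𝓝 ⟪g, (U ^ n) g⟫) :=
    hg.inner (((U ^ n).continuous.tendsto g).comp hg)
  exact ge_of_tendsto h2 (eventually_atTop.2 ⟨M₀, hM⟩)

end Pool.Agent.Q306.OR
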