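import Mathlib
import Pool.Agent.Q306.OR.Step
import Pool.Agent.Q306.OR.Sets

/-!
# Bounded functions as vectors
-/

set_option autoImplicit false
set_option linter.unusedSectionVars false

namespace Pool.Agent.Q306.OR

open MeasureTheory Filter Topology Set
open scoped RealInnerProductSpace

variable {X : Type*} [MeasurableSpace X] {μ : Measure X} [IsProbabilityMeasure μ] {T : X → X}

/-- Bounded measurable functions. -/
def Bd (f : X → ℝ) (C : ℝ) : Prop := Measurable f ∧ ∀ x, |f x| ≤ C

theorem Bd.memLp {f : X → ℝ} {C : ℝ} (hf : Bd f C) (p : ENNReal) : MemLp f p μ :=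
  MemLp.of_bound hf.1.aestronglyMeasurable C (Eventually.of_forall fun x => by
    rw [Real.norm_eq_abs]; exact hf.2 x)

open Classical in
/-- The class of a function. -/
noncomputable def vec (μ : Measure X) (f : X → ℝ) : Lp ℝ 2 μ :=
  if h : MemLp f 2 μ then h.toLp f else 0

theorem vec_eq {f : X → ℝ} (h : MemLp f 2 μ) : vec μ f = h.toLp f := dif_pos h

theorem inner_vec {f g : X → ℝ} (hf : MemLp f 2 μ) (hg : MemLp g 2 μ) :
    ⟪vec μ f, vec μ g⟫ = ∫ x, f x * g x ∂μ := by
  rw [vec_eq hf, vec_eq hg, L2.inner_def]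
  refine integral_congr_ae ?_
  filter_upwards [hf.coeFn_toLp, hg.coeFn_toLp] with x h1 h2
  rw [h1, h2]
  simp [mul_comm]

/-- The Koopman operator. -/
noncomputable def koop (hT : MeasurePreserving T μ μ) : Lp ℝ 2 μ →ₗᵢ[ℝ] Lp ℝ 2 μ :=
  Lp.compMeasurePreservingₗᵢ ℝ T hT

theorem koop_vec (hT : MeasurePreserving T μ μ) {f : X → ℝ} (hf : MemLp f 2 μ) :
    koop hT (vec μ f) = vec μ (f ∘ T) := by
  rw [vec_eq hf, vec_eq (hf.comp_measurePreserving hT)]
  exact Lp.toLp_compMeasurePreserving hf hT

theorem koop_pow_vec (hT : MeasurePreserving T μ μ) (n : ℕ) {f : X → ℝ} (hf : MemLp f 2 μ) :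
    (koop hT ^ n) (vec μ f) = vec μ (fun x => f (T^[n] x)) := by
  induction n generalizing f with
  | zero => rfl
  | succ n ih =>
    rw [pow_add_apply, pow_one, koop_vec hT hf, ih (hf.comp_measurePreserving hT)]
    congr 1
    ext x
    simp only [Function.comp_apply, ← Function.iterate_succ_apply' T n x]

theorem vec_add {f g : X → ℝ} (hf : MemLp f 2 μ) (hg : MemLp g 2 μ) :
    vec μ (fun x => f x + g x) = vec μ f + vec μ g := by
  rw [vec_eq hf, vec_eq hg]
  exact vec_eq (hf.add hg)

theorem vec_sub {f g : X → ℝ} (hf : MemLp f 2 μ) (hg : MemLp g 2 μ) :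
    vec μ (fun x => f x - g x) = vec μ f - vec μ g := by
  rw [vec_eq hf, vec_eq hg]
  exact vec_eq (hf.sub hg)

theorem vec_smul (c : ℝ) {f : X → ℝ} (hf : MemLp f 2 μ) :
    vec μ (fun x => c * f x) = c • vec μ f := by
  rw [vec_eq hf]
  exact vec_eq (hf.const_mul c)

theorem vec_sum (c : ℕ → ℝ) {f : ℕ → X → ℝ} (hf : ∀ k, MemLp (f k) 2 μ) (M : ℕ) :
    MemLp (fun x => ∑ k ∈ Finset.range M, c k * f k x) 2 μ ∧
    vec μ (fun x => ∑ k ∈ Finset.range M, c k * f k x) =
      ∑ k ∈ Finset.range M, c k • vec μ (f k) := by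
  induction M with
  | zero =>
    have h0 : MemLp (fun _ : X => (0 : ℝ)) 2 μ := MemLp.zero'
    refine ⟨by simp, ?_⟩
    simp only [Finset.range_zero, Finset.sum_empty]
    rw [vec_eq h0]
    rfl
  | succ M ih =>
    have h1 : (fun x => ∑ k ∈ Finset.range (M + 1), c k * f k x) =
        fun x => (∑ k ∈ Finset.range M, c k * f k x) + c M * f M x := by
      ext x
      rw [Finset.sum_range_succ]
    rw [h1, Finset.sum_range_succ]
    exact ⟨ih.1.add ((hf M).const_mul (c M)),
      by rw [vec_add ih.1 ((hf M).const_mul (c M)), ih.2, vec_smul _ (hf M)]⟩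

theorem norm_vec_le {f : X → ℝ} (hf : MemLp f 2 μ) {C : ℝ} (hC : 0 ≤ C) (h : ∀ x, |f x| ≤ C) :
    ‖vec μ f‖ ≤ C := by
  have h1 : ∀ᵐ x ∂μ, ‖(hf.toLp f) x‖ ≤ C := by
    filter_upwards [hf.coeFn_toLp] with x hx
    rw [hx, Real.norm_eq_abs]
    exact h x
  have h2 := Lp.norm_le_of_ae_bound hC h1
  rw [vec_eq hf]
  refine h2.trans (le_of_eq ?_)
  simp [measureUnivNNReal]

/-- The centred indicator function. -/
noncomputable def phi (μ : Measure X) (A : Set X) (x : X) : ℝ :=
  A.indicator (fun _ => (1 : ℝ)) x - μ.real A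

theorem phi_bd {A : Set X} (hA : MeasurableSet A) : Bd (phi μ A) 1 := by
  refine ⟨(measurable_const.indicator hA).sub_const _, fun x => ?_⟩
  have h1 : μ.real A ≤ 1 := by
    have := measureReal_mono (μ := μ) (subset_univ A)
    rwa [probReal_univ] at this
  have h0 : 0 ≤ μ.real A := measureReal_nonneg
  rw [phi, abs_le]
  by_cases hx : x ∈ A
  · rw [indicator_of_mem hx]; constructor <;> linarith
  · rw [indicator_of_notMem hx]; constructor <;> linarith

theorem integral_phi {A : Set X} (hA : MeasurableSet A) : ∫ x, phi μ A x ∂μ = 0 := by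
  unfold phi
  rw [integral_sub ((integrable_const (1 : ℝ)).indicator hA) (integrable_const _),
    integral_indicator_const _ hA, integral_const]
  simp

theorem integral_phi_phi (hT : MeasurePreserving T μ μ) (n : ℕ) {A B : Set X}
    (hA : MeasurableSet A) (hB : MeasurableSet B) :
    ∫ x, phi μ A x * phi μ B (T^[n] x) ∂μ = μ.real (A ∩ T^[n] ⁻¹' B) - μ.real A * μ.real B := by
  have hTB : MeasurableSet (T^[n] ⁻¹' B) := (hT.iterate n).measurable hB
  have h1 : ∀ x, phi μ A x * phi μ B (T^[n] x) =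
      ((A ∩ T^[n] ⁻¹' B).indicator (fun _ => (1 : ℝ)) x - μ.real B * A.indicator (fun _ => (1 : ℝ)) x)
        - (μ.real A * (T^[n] ⁻¹' B).indicator (fun _ => (1 : ℝ)) x - μ.real A * μ.real B) := by
    intro x
    unfold phi
    by_cases h1 : x ∈ A <;> by_cases h2 : T^[n] x ∈ B
    · rw [indicator_of_mem h1, indicator_of_mem h2,
        indicator_of_mem (show x ∈ A ∩ T^[n] ⁻¹' B from ⟨h1, h2⟩),
        indicator_of_mem (show x ∈ T^[n] ⁻¹' B from h2)]
      ring
    · rw [indicator_of_mem h1, indicator_of_notMem h2,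
        indicator_of_notMem (show x ∉ A ∩ T^[n] ⁻¹' B from fun h => h2 h.2),
        indicator_of_notMem (show x ∉ T^[n] ⁻¹' B from h2)]
      ring
    · rw [indicator_of_notMem h1, indicator_of_mem h2,
        indicator_of_notMem (show x ∉ A ∩ T^[n] ⁻¹' B from fun h => h1 h.1),
        indicator_of_mem (show x ∈ T^[n] ⁻¹' B from h2)]
      ring
    · rw [indicator_of_notMem h1, indicator_of_notMem h2,
        indicator_of_notMem (show x ∉ A ∩ T^[n] ⁻¹' B from fun h => h1 h.1),
        indicator_of_notMem (show x ∉ T^[n] ⁻¹' B from h2)]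
      ring
  have i1 : ∀ {S : Set X}, MeasurableSet S →
      Integrable (S.indicator (fun _ => (1 : ℝ))) μ := fun hS =>
    (integrable_const (1 : ℝ)).indicator hS
  rw [integral_congr_ae (Eventually.of_forall h1)]
  rw [integral_sub, integral_sub, integral_sub, integral_const_mul, integral_const_mul,
    integral_indicator_const _ (hA.inter hTB), integral_indicator_const _ hA,
    integral_indicator_const _ hTB, integral_const, real_preimage hT n hB]
  · simp; ring
  · exact (i1 hTB).const_mul _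
  · exact integrable_const _
  · exact i1 (hA.inter hTB)
  · exact (i1 hA).const_mul _
  · exact (i1 (hA.inter hTB)).sub ((i1 hA).const_mul _)
  · exact ((i1 hTB).const_mul _).sub (integrable_const _)

end Pool.Agent.Q306.OR
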