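import Mathlib
import Pool.Agent.Q306.OR.Vec

/-!
# Bounded over-recurrent functions in mixing systems
-/

set_option autoImplicit false
set_option linter.unusedSectionVars false

namespace Pool.Agent.Q306.OR

open MeasureTheory Filter Topology Set
open scoped RealInnerProductSpace

variable {X : Type*} [MeasurableSpace X] {μ : Measure X} [IsProbabilityMeasure μ] {T : X → X}

theorem tendsto_phi (hT : MeasurePreserving T μ μ) (hmix : Mixing μ T) {A B : Set X}
    (hA : MeasurableSet A) (hB : MeasurableSet B) :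
    Tendsto (fun n : ℕ => ⟪vec μ (phi μ A), (koop hT ^ n) (vec μ (phi μ B))⟫) atTop (𝓝 0) := by
  have h1 : ∀ n : ℕ, ⟪vec μ (phi μ A), (koop hT ^ n) (vec μ (phi μ B))⟫ =
      μ.real (A ∩ T^[n] ⁻¹' B) - μ.real A * μ.real B := by
    intro n
    have hB' : MemLp (fun x => phi μ B (T^[n] x)) 2 μ :=
      ((phi_bd hB).memLp 2).comp_measurePreserving (hT.iterate n)
    rw [koop_pow_vec hT n ((phi_bd hB).memLp 2), inner_vec ((phi_bd hA).memLp 2) hB',
      integral_phi_phi hT n hA hB]
  simp only [h1]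
  have h2 := (hmix A B hA hB).sub_const (μ.real A * μ.real B)
  rwa [sub_self] at h2

/-- The span of the centred indicator functions. -/
def dom (μ : Measure X) [IsProbabilityMeasure μ] : Submodule ℝ (Lp ℝ 2 μ) :=
  Submodule.span ℝ {v | ∃ A : Set X, MeasurableSet A ∧ v = vec μ (phi μ A)}

theorem tendsto_dom (hT : MeasurePreserving T μ μ) (hmix : Mixing μ T) :
    ∀ x ∈ dom μ, ∀ y ∈ dom μ, Tendsto (fun n : ℕ => ⟪x, (koop hT ^ n) y⟫) atTop (𝓝 0) := by
  intro x hx
  induction hx using Submodule.span_induction with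
  | mem x hx =>
    obtain ⟨A, hA, rfl⟩ := hx
    intro y hy
    induction hy using Submodule.span_induction with
    | mem y hy =>
      obtain ⟨B, hB, rfl⟩ := hy
      exact tendsto_phi hT hmix hA hB
    | zero => simp
    | add y z _ _ hy hz =>
      simp only [map_add, inner_add_right]
      simpa using hy.add hz
    | smul c y _ hy =>
      simp only [map_smul, inner_smul_right]
      simpa using hy.const_mul c
  | zero => intro y _; simp
  | add x z _ _ hx hz =>
    intro y hy
    simp only [inner_add_left]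
    simpa using (hx y hy).add (hz y hy)
  | smul c x _ hx =>
    intro y hy
    simp only [inner_smul_left]
    simpa using (hx y hy).const_mul c

/-- The vectors used in the construction. -/
def good (μ : Measure X) [IsProbabilityMeasure μ] : Set (Lp ℝ 2 μ) :=
  {v | ∃ A : Set X, MeasurableSet A ∧ 2 / 5 ≤ μ.real A ∧ μ.real A ≤ 3 / 5 ∧ v = vec μ (phi μ A)}

theorem norm_phi_sq (hT : MeasurePreserving T μ μ) {A : Set X} (hA : MeasurableSet A) :
    ‖vec μ (phi μ A)‖ ^ 2 = μ.real A - μ.real A * μ.real A := by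
  rw [← real_inner_self_eq_norm_sq, inner_vec ((phi_bd hA).memLp 2) ((phi_bd hA).memLp 2)]
  have := integral_phi_phi hT 0 hA hA
  simp only [Function.iterate_zero, id_eq, preimage_id, inter_self] at this
  exact this

theorem exists_good (hT : MeasurePreserving T μ μ) (hmix : Mixing μ T)
    (hne : ∃ A : Set X, MeasurableSet A ∧ 0 < μ.real A ∧ μ.real A < 1) (ε : ℝ) (hε : 0 < ε) :
    ∃ h ∈ good μ, ‖koop hT h - h‖ ≤ ε := by
  obtain ⟨A, hA, h1, h2, C, D, hC, hD, hCε, hDε, hAC, hAD⟩ :=
    exists_almost_invariant hT hmix hne (ε := ε ^ 2 / 2) (by positivity)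
  refine ⟨vec μ (phi μ A), ⟨A, hA, h1, h2, rfl⟩, ?_⟩
  have hp : MemLp (phi μ A) 2 μ := (phi_bd hA).memLp 2
  have hpT : MemLp (phi μ A ∘ T) 2 μ := hp.comp_measurePreserving hT
  rw [koop_vec hT hp, ← vec_sub hpT hp]
  have hm : MemLp (fun x => (phi μ A ∘ T) x - phi μ A x) 2 μ := hpT.sub hp
  have h3 : ‖vec μ (fun x => (phi μ A ∘ T) x - phi μ A x)‖ ^ 2 ≤ ε ^ 2 := by
    rw [← real_inner_self_eq_norm_sq, inner_vec hm hm]
    have h4 : ∫ x, ((phi μ A ∘ T) x - phi μ A x) * ((phi μ A ∘ T) x - phi μ A x) ∂μ ≤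
        ∫ x, (C.indicator (fun _ => (1 : ℝ)) x + D.indicator (fun _ => (1 : ℝ)) x) ∂μ := by
      refine integral_mono_of_nonneg (Eventually.of_forall fun x => mul_self_nonneg _)
        (((integrable_const (1 : ℝ)).indicator hC).add ((integrable_const (1 : ℝ)).indicator hD))
        (Eventually.of_forall fun x => ?_)
      have hC0 : 0 ≤ C.indicator (fun _ => (1 : ℝ)) x := indicator_nonneg (fun _ _ => by norm_num) x
      have hD0 : 0 ≤ D.indicator (fun _ => (1 : ℝ)) x := indicator_nonneg (fun _ _ => by norm_num) x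
      simp only [Function.comp_apply, phi]
      by_cases hx : x ∈ A <;> by_cases hTx : T x ∈ A
      · rw [indicator_of_mem hx, indicator_of_mem hTx]
        nlinarith
      · rw [indicator_of_mem hx, indicator_of_notMem hTx, indicator_of_mem (hAC x hx hTx)]
        nlinarith
      · rw [indicator_of_notMem hx, indicator_of_mem hTx, indicator_of_mem (hAD x hx hTx)]
        nlinarith
      · rw [indicator_of_notMem hx, indicator_of_notMem hTx]
        nlinarith
    refine h4.trans ?_
    rw [integral_add ((integrable_const (1 : ℝ)).indicator hC)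
      ((integrable_const (1 : ℝ)).indicator hD), integral_indicator_const _ hC,
      integral_indicator_const _ hD]
    simp only [smul_eq_mul, mul_one]
    linarith
  exact (sq_le_sq₀ (norm_nonneg _) hε.le).1 h3

theorem r_pos : (0 : ℝ) < r := by unfold r; norm_num

theorem r_lt : r < 1 := by unfold r; norm_num

/-- **Every nontrivial mixing system has a bounded function of integral zero whose correlations are
all positive.** -/
theorem exists_function (hT : MeasurePreserving T μ μ) (hmix : Mixing μ T)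
    (hne : ∃ A : Set X, MeasurableSet A ∧ 0 < μ.real A ∧ μ.real A < 1) :
    ∃ f : X → ℝ, Measurable f ∧ (∀ x, |f x| ≤ 8) ∧ ∫ x, f x ∂μ = 0 ∧
      ∀ n : ℕ, 1 ≤ n → 0 < ∫ x, f x * f (T^[n] x) ∂μ := by
  obtain ⟨h, hh, hmain⟩ := exists_overrecurrent (koop hT)
    (fun x hx => tendsto_dom hT hmix x hx x hx) (𝒦 := good μ)
    (fun v ⟨A, hA, _, _, hv⟩ => Submodule.subset_span ⟨A, hA, hv⟩)
    (exists_good hT hmix hne)
    (by
      rintro v ⟨A, hA, h1, h2, rfl⟩
      rw [norm_phi_sq hT hA]
      nlinarith)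
    (by
      rintro v ⟨A, hA, h1, h2, rfl⟩
      rw [norm_phi_sq hT hA]
      nlinarith [sq_nonneg (μ.real A - 1 / 2)])
  choose A hA h1 h2 hv using hh
  have hgeo : HasSum (fun k : ℕ => r ^ k) 8 := by
    have := hasSum_geometric_of_lt_one r_pos.le r_lt
    have h8 : (1 - r)⁻¹ = 8 := by unfold r; norm_num
    rwa [h8] at this
  have hgeoM : ∀ M : ℕ, HasSum (fun k : ℕ => r ^ (k + M)) (8 * r ^ M) := by
    intro M
    have := hgeo.mul_right (r ^ M)
    simpa only [pow_add] using this
  have hterm : ∀ (k : ℕ) (x : X), ‖r ^ k * phi μ (A k) x‖ ≤ r ^ k := by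
    intro k x
    rw [Real.norm_eq_abs, abs_mul, abs_of_pos (pow_pos r_pos k)]
    have := (phi_bd (μ := μ) (hA k)).2 x
    nlinarith [pow_pos r_pos k]
  have hsum : ∀ x : X, Summable (fun k : ℕ => r ^ k * phi μ (A k) x) := fun x =>
    Summable.of_norm_bounded hgeo.summable (fun k => hterm k x)
  set f : X → ℝ := fun x => ∑' k : ℕ, r ^ k * phi μ (A k) x with hf
  have hpart : ∀ (M : ℕ) (x : X),
      |(∑ k ∈ Finset.range M, r ^ k * phi μ (A k) x) - f x| ≤ 8 * r ^ M := by
    intro M x
    rw [hf]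
    simp only
    rw [← (hsum x).sum_add_tsum_nat_add M, sub_add_cancel_left, abs_neg, ← Real.norm_eq_abs]
    exact tsum_of_norm_bounded (hgeoM M) fun k => hterm (k + M) x
  have hfm : Measurable f := by
    refine measurable_of_tendsto_metrizable
      (f := fun M : ℕ => fun x => ∑ k ∈ Finset.range M, r ^ k * phi μ (A k) x) (fun M => ?_) ?_
    · exact Finset.measurable_sum _ fun k _ => ((phi_bd (hA k)).1).const_mul _
    · exact tendsto_pi_nhds.2 fun x => (hsum x).hasSum.tendsto_sum_nat
  have hfb : ∀ x, |f x| ≤ 8 := by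
    intro x
    have := hpart 0 x
    simpa using this
  have hfbd : Bd f 8 := ⟨hfm, hfb⟩
  have hfL : MemLp f 2 μ := hfbd.memLp 2
  have hphiL : ∀ k, MemLp (phi μ (A k)) 2 μ := fun k => (phi_bd (hA k)).memLp 2
  have hvec : ∀ M : ℕ, ∑ i ∈ Finset.range M, r ^ i • h i =
      vec μ (fun x => ∑ k ∈ Finset.range M, r ^ k * phi μ (A k) x) := by
    intro M
    rw [(vec_sum (fun k => r ^ k) hphiL M).2]
    exact Finset.sum_congr rfl fun k _ => by rw [hv k]
  have htend : Tendsto (fun M : ℕ => ∑ i ∈ Finset.range M, r ^ i • h i) atTop (𝓝 (vec μ f)) := by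
    rw [tendsto_iff_norm_sub_tendsto_zero]
    have h3 : Tendsto (fun M : ℕ => 8 * r ^ M) atTop (𝓝 0) := by
      have := (tendsto_pow_atTop_nhds_zero_of_lt_one r_pos.le r_lt).const_mul 8
      rwa [mul_zero] at this
    refine squeeze_zero (fun _ => norm_nonneg _) (fun M => ?_) h3
    have h4 := (vec_sum (μ := μ) (fun k => r ^ k) hphiL M).1
    rw [hvec, ← vec_sub h4 hfL]
    exact norm_vec_le (h4.sub hfL) (by have := pow_pos r_pos M; positivity) (hpart M)
  refine ⟨f, hfm, hfb, ?_, fun n hn => ?_⟩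
  · have h1L : MemLp (fun _ : X => (1 : ℝ)) 2 μ := memLp_const 1
    have h3 : Tendsto (fun M : ℕ => ⟪vec μ (fun _ : X => (1 : ℝ)),
        ∑ i ∈ Finset.range M, r ^ i • h i⟫) atTop (𝓝 ⟪vec μ (fun _ : X => (1 : ℝ)), vec μ f⟫) :=
      tendsto_const_nhds.inner htend
    have h4 : ∀ M : ℕ, ⟪vec μ (fun _ : X => (1 : ℝ)), ∑ i ∈ Finset.range M, r ^ i • h i⟫ = 0 := by
      intro M
      rw [inner_sum]
      refine Finset.sum_eq_zero fun k _ => ?_
      rw [hv k, inner_smul_right, inner_vec h1L (hphiL k)]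
      simp only [one_mul, integral_phi (hA k), mul_zero]
    simp only [h4] at h3
    have h5 := tendsto_nhds_unique h3 tendsto_const_nhds
    rw [inner_vec h1L hfL] at h5
    simpa using h5
  · have h3 := hmain (vec μ f) htend n hn
    have hf' : MemLp (fun x => f (T^[n] x)) 2 μ := hfL.comp_measurePreserving (hT.iterate n)
    rwa [koop_pow_vec hT n hfL, inner_vec hfL hf'] at h3

end Pool.Agent.Q306.OR
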